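import Pool.Agent.H82.PRP.Stmts

/-!
# LIM: the limit (MP_9180b3_al)
-/

namespace Pool.Agent.H82.PRP

open Filter Topology

theorem lim_thm : LIMStmt := by
  intro a ha hb
  rw [tendsto_order]
  constructor
  · intro b hb1
    filter_upwards [eventually_ge_atTop 1] with n hn
    have h1 : (1 : ℝ) ≤ (a n : ℝ) := by exact_mod_cast ha n hn
    have h2 : (1 : ℝ) ≤ (a n : ℝ) ^ (1 / (n : ℝ)) := Real.one_le_rpow h1 (by positivity)
    linarith
  · intro b hb1
    set s : ℝ := (1 + b) / 2 with hs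
    have hs1 : 1 < s := by rw [hs]; linarith
    have hsb : s < b := by rw [hs]; linarith
    have hs0 : 0 < s := by linarith
    obtain ⟨C, hC, hCn⟩ := hb s⁻¹ (inv_pos.mpr hs0) (inv_lt_one_of_one_lt₀ hs1)
    rw [inv_inv] at hCn
    have h0 : Tendsto (fun n : ℕ => 1 / (n : ℝ)) atTop (𝓝 0) := tendsto_one_div_atTop_nhds_zero_nat
    have hCs : 0 < C * s := mul_pos hC hs0
    have h1 : Tendsto (fun n : ℕ => (C * s) ^ (1 / (n : ℝ)) * s) atTop (𝓝 ((C * s) ^ (0 : ℝ) * s)) :=
      (((Real.continuousAt_const_rpow hCs.ne').tendsto).comp h0).mul_const s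
    rw [Real.rpow_zero, one_mul] at h1
    have h2 := (tendsto_order.1 h1).2 b hsb
    filter_upwards [h2, eventually_ge_atTop 1] with n hn hn1
    refine lt_of_le_of_lt ?_ hn
    have hn0 : (n : ℝ) ≠ 0 := by positivity
    calc (a n : ℝ) ^ (1 / (n : ℝ)) ≤ (C * s ^ (n + 1)) ^ (1 / (n : ℝ)) :=
          Real.rpow_le_rpow (by positivity) (hCn n hn1) (by positivity)
      _ = (C * s) ^ (1 / (n : ℝ)) * s := by
          have h3 : C * s ^ (n + 1) = (C * s) * s ^ n := by ring
          rw [h3, Real.mul_rpow hCs.le (by positivity)]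
          congr 1
          rw [← Real.rpow_natCast, ← Real.rpow_mul hs0.le, mul_one_div_cancel hn0, Real.rpow_one]

end Pool.Agent.H82.PRP
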