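import Pool.Agent.H82.PRP.Stmts

/-!
# VREL: the elements `v_i` (MP_9180b3_al)
-/

namespace Pool.Agent.H82.PRP

open Filter Topology

namespace VREL

variable {p : ℕ} {F : Type} [Group F]

/-- `y_s = x^s y x^{-s}` -/
def ys (gen : Fin 3 → F) (s : ℕ) : F := gen 0 ^ s * gen 1 * (gen 0 ^ s)⁻¹

/-- iterated commutators -/
def uu (gen : Fin 3 → F) : List ℕ → F
  | [] => gen 2
  | s :: S => ys gen s * uu gen S * (ys gen s)⁻¹ * (uu gen S)⁻¹

/-- the factors -/
def ww (gen : Fin 3 → F) (i k : ℕ) : F :=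
  gen 0 ^ (4 ^ k) * uu gen (SS i k) * (gen 0 ^ (4 ^ k))⁻¹

theorem der_one {D : ℕ → Subgroup F} {δ : F → F → ZMod p} (hδ : IsDer D δ) (x : F) :
    δ 1 x = 0 := by
  have h := hδ.mul 1 1 x
  rw [mul_one, mul_one] at h
  simpa using h

theorem der_inv {D : ℕ → Subgroup F} {δ : F → F → ZMod p} (hδ : IsDer D δ) (v x : F) :
    δ v⁻¹ x = - δ v (x * v⁻¹) := by
  have h := hδ.mul v v⁻¹ (x * v⁻¹)
  rw [mul_inv_cancel, der_one hδ, inv_mul_cancel_right] at h
  exact (neg_eq_of_add_eq_zero_right h.symm).symm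

/-- the elements on which `δ` vanishes form a subgroup -/
def kerDer {D : ℕ → Subgroup F} {δ : F → F → ZMod p} (hδ : IsDer D δ) : Subgroup F where
  carrier := {w | ∀ x, δ w x = 0}
  mul_mem' := by
    intro a b ha hb x
    rw [hδ.mul, ha, hb, add_zero]
  one_mem' := der_one hδ
  inv_mem' := by
    intro a ha x
    rw [der_inv hδ, ha, neg_zero]

theorem der_conj {D : ℕ → Subgroup F} {δ : F → F → ZMod p} (hδ : IsDer D δ) {g : F}
    (hg : g ∈ kerDer hδ) (u x : F) : δ (g * u * g⁻¹) x = δ u (x * g) := by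
  have h1 : ∀ x, δ g x = 0 := hg
  have h2 : ∀ x, δ g⁻¹ x = 0 := (kerDer hδ).inv_mem hg
  rw [hδ.mul, hδ.mul, h1, h2, zero_add, add_zero]

theorem der_comm {D : ℕ → Subgroup F} {δ : F → F → ZMod p} (hδ : IsDer D δ) {M : Subgroup F}
    (hM : ∀ w, RInv M (δ w)) (hn : M.Normal) {g : F} (hg : g ∈ kerDer hδ) {u : F} (hu : u ∈ M)
    (x : F) : δ (g * u * g⁻¹ * u⁻¹) x = δ u (x * g) - δ u x := by
  rw [hδ.mul, der_conj hδ hg, der_inv hδ]
  have h1 : x * (g * u * g⁻¹) * u⁻¹ = x * (g * u * g⁻¹ * u⁻¹) := by group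
  have h2 : g * u * g⁻¹ * u⁻¹ ∈ M := M.mul_mem (hn.conj_mem u hu g) (M.inv_mem hu)
  rw [h1, hM u x _ h2]
  ring

theorem ys_mem {D : ℕ → Subgroup F} {δ : F → F → ZMod p} (hδ : IsDer D δ) {gen : Fin 3 → F}
    (h0 : δ (gen 0) = 0) (h1 : δ (gen 1) = 0) (s : ℕ) : ys gen s ∈ kerDer hδ := by
  have k0 : gen 0 ∈ kerDer hδ := fun x => by rw [h0]; rfl
  have k1 : gen 1 ∈ kerDer hδ := fun x => by rw [h1]; rfl
  exact (kerDer hδ).mul_mem ((kerDer hδ).mul_mem ((kerDer hδ).pow_mem k0 s) k1)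
    ((kerDer hδ).inv_mem ((kerDer hδ).pow_mem k0 s))

theorem uu_memD [TopologicalSpace F] {gen : Fin 3 → F} {D : ℕ → Subgroup F}
    (h : FPP p F gen D) (S : List ℕ) : uu gen S ∈ D (S.length + 1) := by
  induction S with
  | nil =>
    change gen 2 ∈ D 1
    rw [h.one]
    trivial
  | cons s S ih =>
    have h1 : ys gen s ∈ D 1 := by rw [h.one]; trivial
    have h2 := h.comm 1 (S.length + 1) _ h1 _ ih
    have h3 : 1 + (S.length + 1) = (s :: S).length + 1 := by simp; omega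
    rw [h3] at h2
    exact h2

theorem uu_memN {gen : Fin 3 → F} {M : Subgroup F} (hn : M.Normal) (h2 : gen 2 ∈ M)
    (S : List ℕ) : uu gen S ∈ M := by
  induction S with
  | nil => exact h2
  | cons s S ih => exact M.mul_mem (hn.conj_mem _ ih _) (M.inv_mem ih)

theorem pp_mem {M : Subgroup F} {w : ℕ → F} (h : ∀ k, w k ∈ M) (K : ℕ) : pp w K ∈ M := by
  induction K with
  | zero => exact M.one_mem
  | succ K ih => exact M.mul_mem ih (h K)

theorem der_pp {D : ℕ → Subgroup F} {δ : F → F → ZMod p} (hδ : IsDer D δ) {M : Subgroup F}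
    (hM : ∀ w, RInv M (δ w)) {w : ℕ → F} (hw : ∀ k, w k ∈ M) (K : ℕ) (x : F) :
    δ (pp w K) x = ∑ k ∈ Finset.range K, δ (w k) x := by
  induction K with
  | zero =>
    change δ 1 x = _
    rw [der_one hδ, Finset.range_zero, Finset.sum_empty]
  | succ K ih =>
    change δ (pp w K * w K) x = _
    rw [hδ.mul, ih, Finset.sum_range_succ, hM (w K) x _ (pp_mem hw K)]

theorem der_uu {D : ℕ → Subgroup F} {δ : F → F → ZMod p} (hδ : IsDer D δ) {gen : Fin 3 → F}
    {α : ∀ m, F →* Lamp p m} (hα : LampSys p gen D α) (hM : ∀ w, RInv (NQ α) (δ w))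
    (hn : (NQ α).Normal) (h2 : gen 2 ∈ NQ α)
    (h0 : δ (gen 0) = 0) (h1 : δ (gen 1) = 0) (m : ℕ) (f : Lamp p m → ZMod p)
    (hf : ∀ x, δ (gen 2) x = f (α m x)) (S : List ℕ) (x : F) :
    δ (uu gen S) x = DSl S f (α m x) := by
  induction S generalizing x with
  | nil => exact hf x
  | cons s S ih =>
    change δ (ys gen s * uu gen S * (ys gen s)⁻¹ * (uu gen S)⁻¹) x = _
    rw [der_comm hδ hM hn (ys_mem hδ h0 h1 s) (uu_memN hn h2 S), ih, ih, map_mul]
    have h3 : α m (ys gen s) = lampYs p m s := by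
      unfold ys lampYs
      rw [map_mul, map_mul, map_inv, map_pow, hα.gen0, hα.gen1]
    rw [h3]
    rfl

end VREL

open VREL in
theorem vrel_thm (hLIMP : LIMPStmt) : VRELStmt := by
  intro p _ F _ _ _ _ _ gen D h α hα
  have hn : (NQ α).Normal := by
    unfold NQ
    exact Subgroup.normal_iInf_normal fun m => inferInstance
  have h2 : gen 2 ∈ NQ α := by
    unfold NQ
    rw [Subgroup.mem_iInf]
    intro m
    exact MonoidHom.mem_ker.mpr (hα.gen2 m)
  have hlen : ∀ i k, (SS i k).length = i + k + 1 := fun i k => by simp [SS]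
  have hwD : ∀ i k, ww gen i k ∈ D (i + k + 2) := by
    intro i k
    have h3 := uu_memD h (SS i k)
    rw [hlen] at h3
    exact (h.normal _).conj_mem _ h3 _
  have hwN : ∀ i k, ww gen i k ∈ NQ α := fun i k => hn.conj_mem _ (uu_memN hn h2 _) _
  have hlim : ∀ i, ∃ v, ∀ K, (pp (ww gen i) K)⁻¹ * v ∈ D K := by
    intro i
    exact hLIMP p F gen D h (ww gen i) fun k => h.anti (by omega) (hwD i k)
  choose v hv using hlim
  refine ⟨v, ?_, ?_, ?_⟩
  · intro i
    have h3 : pp (ww gen i) (i + 2) ∈ D (i + 2) :=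
      pp_mem (fun k => h.anti (by omega) (hwD i k)) (i + 2)
    have h4 := (D (i + 2)).mul_mem h3 (hv i (i + 2))
    rwa [mul_inv_cancel_left] at h4
  · intro i
    unfold NQ
    rw [Subgroup.mem_iInf]
    intro m
    obtain ⟨n, hnn⟩ := hα.cont m
    have h3 : pp (ww gen i) n ∈ (α m).ker := by
      have h5 : pp (ww gen i) n ∈ NQ α := pp_mem (hwN i) n
      unfold NQ at h5
      rw [Subgroup.mem_iInf] at h5
      exact h5 m
    have h4 := (α m).ker.mul_mem h3 (hnn (hv i n))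
    rwa [mul_inv_cancel_left] at h4
  · intro δ hδ hM h0 h1 m f hf
    obtain ⟨n, hloc⟩ := hδ.loc
    refine ⟨n, fun K hK i x => ?_⟩
    have h3 : v i = pp (ww gen i) K * ((pp (ww gen i) K)⁻¹ * v i) :=
      (mul_inv_cancel_left _ _).symm
    have h4 : δ (v i) x = δ (pp (ww gen i) K) x := by
      rw [h3]
      exact (hloc _ x _ (h.anti hK (hv i K))).1
    rw [h4, der_pp hδ hM (hwN i)]
    refine Finset.sum_congr rfl fun k _ => ?_
    have k0 : gen 0 ^ (4 ^ k) ∈ kerDer hδ :=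
      (kerDer hδ).pow_mem (fun x => by rw [h0]; rfl) _
    change δ (gen 0 ^ (4 ^ k) * uu gen (SS i k) * (gen 0 ^ (4 ^ k))⁻¹) x = _
    rw [der_conj hδ k0, der_uu hδ hα hM hn h2 h0 h1 m f hf, map_mul, map_pow, hα.gen0]

end Pool.Agent.H82.PRP
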