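import Pool.Agent.H82.PRP.Stmts

/-!
# GIDX: index comparison (MP_9180b3_al)
-/

namespace Pool.Agent.H82.PRP

theorem gidx_thm : GIDXStmt := by
  intro F _ A B M N hA hB hM hN hBA hfin hAM
  have hBN : (B ⊔ N).Normal := Subgroup.sup_normal B N
  have h1 : A ⊔ N = A ⊔ (B ⊔ N) := by
    rw [← sup_assoc, sup_eq_left.mpr hBA]
  have h2 : (B ⊔ N).relIndex (A ⊔ N) = (B ⊔ N).relIndex A := by
    rw [h1]
    exact Subgroup.relIndex_sup_right A (B ⊔ N)
  have hfM : (B ⊔ M).FiniteIndex := Subgroup.finiteIndex_of_le le_sup_left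
  have h3 : (B ⊔ M) ⊓ A ≤ B ⊔ N := by
    intro x hx
    obtain ⟨hx1, hx2⟩ := hx
    have hx1' : x ∈ B ⊔ M := hx1
    rw [Subgroup.mem_sup_of_normal_right] at hx1'
    obtain ⟨b, hb, m, hm, rfl⟩ := hx1'
    have hmA : m ∈ A := by
      have := A.mul_mem (A.inv_mem (hBA hb)) hx2
      rwa [inv_mul_cancel_left] at this
    exact (B ⊔ N).mul_mem (Subgroup.mem_sup_left hb) (hAM ⟨hmA, hm⟩)
  have h4 : ((B ⊔ M) ⊓ A).relIndex A = (B ⊔ M).relIndex A := Subgroup.inf_relIndex_right _ _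
  have h5 : (B ⊔ M).relIndex A ≠ 0 := by
    have : (B ⊔ M).IsFiniteRelIndex A := Subgroup.isFiniteRelIndex_of_finiteIndex
    exact this.relIndex_ne_zero
  have h6 : (B ⊔ N).relIndex A ≤ ((B ⊔ M) ⊓ A).relIndex A :=
    Subgroup.relIndex_le_of_le_left h3 (by rw [h4]; exact h5)
  rw [h2]
  refine h6.trans ?_
  rw [h4]
  have h7 := Subgroup.relIndex_le_of_le_right (H := B ⊔ M) (K := A) (L := ⊤) le_top
    (by rw [Subgroup.relIndex_top_right]; exact hfM.index_ne_zero)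
  rwa [Subgroup.relIndex_top_right] at h7

end Pool.Agent.H82.PRP
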